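import Pool.Agent.Helper46_MT.Final

/-! MT100B, module HOD: the Lie algebra, orthogonal case. -/

set_option autoImplicit false
set_option linter.unusedSectionVars false

namespace Pool.Agent.MT100B.H46

open MvPolynomial Matrix Module Pool.Agent.Helper78_MT Pool.Agent.Helper3_MT
  Pool.Agent.Helper46_MT

variable {n : Type*} [Fintype n] [DecidableEq n]

/-- `π_p` has rank one with image spanned by `x` -/
structure LineAt (p : ℕ) (π : ℕ → Matrix n n ℂ) (x : n → ℂ) : Prop where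
  ne : x ≠ 0
  fix : π p *ᵥ x = x
  rk : ∀ v, ∃ c : ℂ, π p *ᵥ v = c • x

/-- `u v^T E - v u^T E` -/
def X2 (F : Matrix n n ℂ) (u v : n → ℂ) : Matrix n n ℂ :=
  vecMulVec u (v ᵥ* F) - vecMulVec v (u ᵥ* F)

theorem X2_mulVec (F : Matrix n n ℂ) (u v x : n → ℂ) :
    X2 F u v *ᵥ x = (v ⬝ᵥ (F *ᵥ x)) • u - (u ⬝ᵥ (F *ᵥ x)) • v := by
  unfold X2
  rw [sub_mulVec, vecMulVec_mulVec, vecMulVec_mulVec, ← dotProduct_mulVec, ← dotProduct_mulVec]
  ext i
  simp [mul_comm]

theorem sym_map {E : Matrix n n ℚ} (hEs : Eᵀ = E) :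
    (E.map (algebraMap ℚ ℂ))ᵀ = E.map (algebraMap ℚ ℂ) := by
  have e : (E.map (algebraMap ℚ ℂ))ᵀ = Eᵀ.map (algebraMap ℚ ℂ) := rfl
  rw [e, hEs]

theorem sym_vecMul {F : Matrix n n ℂ} (hF : Fᵀ = F) (v : n → ℂ) : v ᵥ* F = F *ᵥ v := by
  conv_lhs => rw [← hF]
  rw [vecMul_transpose]

theorem sym_comm {F : Matrix n n ℂ} (hF : Fᵀ = F) (u v : n → ℂ) :
    u ⬝ᵥ (F *ᵥ v) = v ⬝ᵥ (F *ᵥ u) := by
  rw [dotProduct_mulVec, sym_vecMul hF, dotProduct_comm]

section grp
variable {w : ℕ} {E : Matrix n n ℚ} {π : ℕ → Matrix n n ℂ} {I : Set (MvPolynomial (n × n) ℚ)}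
  {x x' : n → ℂ} {p p' : ℕ}

theorem pairp (h : Proj w E π) {q : ℕ} (hpq : p + q = w) (hx : π p *ᵥ x = x) (v : n → ℂ) :
    x ⬝ᵥ (E.map (algebraMap ℚ ℂ) *ᵥ v) = x ⬝ᵥ (E.map (algebraMap ℚ ℂ) *ᵥ (π q *ᵥ v)) := by
  have h1 : ∀ u : n → ℂ, x ⬝ᵥ (E.map (algebraMap ℚ ℂ) *ᵥ u) =
      x ⬝ᵥ (((π p)ᵀ * E.map (algebraMap ℚ ℂ)) *ᵥ u) := by
    intro u
    rw [← mulVec_mulVec, dotProduct_mulVec x (π p)ᵀ, vecMul_transpose, hx]
  have h2 : ((π p)ᵀ * E.map (algebraMap ℚ ℂ)) =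
      ((π p)ᵀ * E.map (algebraMap ℚ ℂ)) * π q := by
    have h3 : ((π p)ᵀ * E.map (algebraMap ℚ ℂ)) * (∑ p ∈ Finset.range (w + 1), π p) =
        ((π p)ᵀ * E.map (algebraMap ℚ ℂ)) * π q := by
      rw [Finset.mul_sum, Finset.sum_eq_single q]
      · intro r hr hne
        have hr' := Nat.lt_succ_iff.1 (Finset.mem_range.1 hr)
        exact h.pair p (by omega) r hr' (by omega)
      · intro hr
        exact absurd (Finset.mem_range.2 (by omega)) hr
    rw [h.sum, mul_one] at h3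
    exact h3
  rw [h1 v, h1 (π q *ᵥ v), mulVec_mulVec, ← h2]

theorem orthp (h : Proj w E π) (hp : p ≤ w) (hp' : p' ≤ w) (hpq : p + p' ≠ w)
    (hx : π p *ᵥ x = x) (hx' : π p' *ᵥ x' = x') : x ⬝ᵥ (E.map (algebraMap ℚ ℂ) *ᵥ x') = 0 := by
  rw [pairp h (q := w - p) (by omega) hx]
  have h1 : π (w - p) *ᵥ x' = 0 := by
    rw [← hx', mulVec_mulVec, h.orth (w - p) (Nat.sub_le _ _) p' hp' (by omega), zero_mulVec]
  rw [h1, mulVec_zero, dotProduct_zero]

theorem rkc (h : Proj w E π) (hp : p ≤ w) (hL : LineAt p π x) (v : n → ℂ) :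
    ∃ c : ℂ, π (w - p) *ᵥ v = c • (fun i => starRingEnd ℂ (x i)) := by
  obtain ⟨c, hc⟩ := hL.rk (fun i => starRingEnd ℂ (v i))
  refine ⟨starRingEnd ℂ c, ?_⟩
  have h1 := conj_mulVec (π p) (fun i => starRingEnd ℂ (v i))
  rw [hc, h.conj p hp] at h1
  simp only [Complex.conj_conj] at h1
  rw [← h1]
  ext i
  simp

theorem kapv (h : Proj w E π) (hp : p ≤ w) (hL : LineAt p π x) (v : n → ℂ) (d : ℂ)
    (hd : π (w - p) *ᵥ v = d • (fun i => starRingEnd ℂ (x i))) :
    x ⬝ᵥ (E.map (algebraMap ℚ ℂ) *ᵥ v) =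
      d * (x ⬝ᵥ (E.map (algebraMap ℚ ℂ) *ᵥ fun i => starRingEnd ℂ (x i))) := by
  rw [pairp h (q := w - p) (by omega) hL.fix v, hd, mulVec_smul, dotProduct_smul, smul_eq_mul]

theorem kap_ne (h : Proj w E π) (hE : E.det ≠ 0) (hp : p ≤ w) (hL : LineAt p π x) :
    x ⬝ᵥ (E.map (algebraMap ℚ ℂ) *ᵥ fun i => starRingEnd ℂ (x i)) ≠ 0 := by
  intro h0
  have h1 : x ᵥ* E.map (algebraMap ℚ ℂ) = 0 := by
    ext j
    obtain ⟨d, hd⟩ := rkc h hp hL (Pi.single j 1)
    have h2 := kapv h hp hL _ d hd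
    rw [h0, mul_zero, dotProduct_mulVec] at h2
    simpa using h2
  have h2 : x ᵥ* (E.map (algebraMap ℚ ℂ) * (E.map (algebraMap ℚ ℂ))⁻¹) = 0 := by
    rw [← vecMul_vecMul, h1, zero_vecMul]
  rw [mul_nonsing_inv _ (det_map hE), vecMul_one] at h2
  exact hL.ne h2

theorem conj_fix (h : Proj w E π) (hp : p ≤ w) (hx : π p *ᵥ x = x) :
    π (w - p) *ᵥ (fun i => starRingEnd ℂ (x i)) = fun i => starRingEnd ℂ (x i) := by
  have h1 := conj_mulVec (π p) x
  rw [hx, h.conj p hp] at h1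
  exact h1.symm

/-- the components of rank one -/
theorem ext2 (h : Proj w E π) (hE : E.det ≠ 0) (hp : p ≤ w) (hp' : p' ≤ w)
    (hL : LineAt p π x) (hL' : LineAt p' π x') (X : Matrix n n ℂ) :
    ∃ c : ℂ, π p * X * π (w - p') = c • vecMulVec x (x' ᵥ* E.map (algebraMap ℚ ℂ)) := by
  obtain ⟨y', hy'⟩ : ∃ y' : n → ℂ, y' = (fun i => starRingEnd ℂ (x' i)) := ⟨_, rfl⟩
  obtain ⟨κ, hκ⟩ : ∃ κ, κ = x' ⬝ᵥ (E.map (algebraMap ℚ ℂ) *ᵥ y') := ⟨_, rfl⟩
  have hκ0 : κ ≠ 0 := by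
    rw [hκ, hy']
    exact kap_ne h hE hp' hL'
  obtain ⟨e, he⟩ := hL.rk (X *ᵥ y')
  refine ⟨e / κ, ?_⟩
  apply Matrix.ext_of_mulVec_single
  intro j
  obtain ⟨d, hd⟩ := rkc h hp' hL' (Pi.single j 1)
  have h2 := kapv h hp' hL' _ d hd
  rw [← hy'] at hd h2
  rw [← hκ] at h2
  rw [← mulVec_mulVec, hd, ← mulVec_mulVec, mulVec_smul, mulVec_smul, he, smul_mulVec,
    vecMulVec_mulVec, ← dotProduct_mulVec, h2]
  ext i
  simp only [Pi.smul_apply, smul_eq_mul, MulOpposite.smul_eq_mul_unop, MulOpposite.unop_op]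
  field_simp

/-- the component of weight `w - 1` -/
theorem Ul_ext2 (h : Proj w E π) (hw : 1 ≤ w) (hG : IsAlgSubgroup I)
    (hI : ∀ z : ℂ, z ≠ 0 → hz w π z ∈ zeros I ℂ) {X : Matrix n n ℂ}
    (hX : X ∈ Ul I E) : π w * X * π 1 + π (w - 1) * X * π 0 ∈ Ul I E := by
  by_contra hnot
  obtain ⟨f, hf, hle⟩ := Submodule.exists_le_ker_of_notMem hnot
  have h1 : (∑ p ∈ Finset.range (w + 1), ∑ q ∈ Finset.range (w + 1),
      Polynomial.C (f (π p * X * π q)) * Polynomial.X ^ (p + (w - q)) : Polynomial ℂ) = 0 := by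
    apply poly_zero_of_eval
    intro t ht
    have h2 : f (Tc w π t * X * Tc w π t⁻¹) = 0 := hle (Ul_conj h hw hG hI ht hX)
    unfold Tc at h2
    rw [Finset.sum_mul, Finset.sum_mul, map_sum] at h2
    have h3 := congrArg (fun x => t ^ w * x) h2
    simp only [mul_zero] at h3
    rw [← h3, Finset.mul_sum, Polynomial.eval_finsetSum]
    apply Finset.sum_congr rfl
    intro p _
    rw [Finset.mul_sum, map_sum, Finset.mul_sum, Polynomial.eval_finsetSum]
    apply Finset.sum_congr rfl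
    intro q hq
    have hq' := Nat.lt_succ_iff.1 (Finset.mem_range.1 hq)
    rw [Polynomial.eval_mul, Polynomial.eval_C, Polynomial.eval_pow, Polynomial.eval_X,
      smul_mul_assoc, smul_mul_smul_comm, map_smul, smul_eq_mul]
    have h4 : t ^ w * (t⁻¹) ^ q = t ^ (w - q) := by
      rw [inv_pow, ← div_eq_mul_inv, div_eq_iff (pow_ne_zero _ ht), ← pow_add,
        Nat.sub_add_cancel hq']
    rw [pow_add, ← h4]
    ring
  have h2 := congrArg (fun P : Polynomial ℂ => P.coeff (w + (w - 1))) h1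
  simp only [Polynomial.finsetSum_coeff, Polynomial.coeff_C_mul, Polynomial.coeff_X_pow,
    Polynomial.coeff_zero] at h2
  obtain ⟨m, rfl⟩ : ∃ m, w = m + 1 := ⟨w - 1, by omega⟩
  rw [Finset.sum_range_succ, Finset.sum_range_succ] at h2
  have e1 : ∑ p ∈ Finset.range m, ∑ q ∈ Finset.range (m + 1 + 1),
      f (π p * X * π q) * (if m + 1 + (m + 1 - 1) = p + (m + 1 - q) then 1 else 0) = 0 := by
    apply Finset.sum_eq_zero
    intro p hp
    have hp' := Finset.mem_range.1 hp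
    apply Finset.sum_eq_zero
    intro q _
    rw [if_neg (by omega), mul_zero]
  have e2 : ∑ q ∈ Finset.range (m + 1 + 1),
      f (π m * X * π q) * (if m + 1 + (m + 1 - 1) = m + (m + 1 - q) then 1 else 0) =
      f (π m * X * π 0) := by
    rw [Finset.sum_eq_single 0]
    · rw [if_pos (by omega), mul_one]
    · intro q _ hq
      rw [if_neg (by omega), mul_zero]
    · intro hq
      exact absurd (Finset.mem_range.2 (by omega)) hq
  have e3 : ∑ q ∈ Finset.range (m + 1 + 1),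
      f (π (m + 1) * X * π q) * (if m + 1 + (m + 1 - 1) = m + 1 + (m + 1 - q) then 1 else 0) =
      f (π (m + 1) * X * π 1) := by
    rw [Finset.sum_eq_single 1]
    · rw [if_pos (by omega), mul_one]
    · intro q hq' hq
      have := Finset.mem_range.1 hq'
      rw [if_neg (by omega), mul_zero]
    · intro hq
      exact absurd (Finset.mem_range.2 (by omega)) hq
  rw [e1, zero_add, e2, e3, add_comm, ← map_add] at h2
  exact hf h2

/-- the component of weight `w - 1` of an element of the orthogonal Lie algebra -/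
theorem comp_mul (h : Proj w E π) (hw : 2 ≤ w) (hG : IsAlgSubgroup I)
    (hI : ∀ z : ℂ, z ≠ 0 → hz w π z ∈ zeros I ℂ) (hE : E.det ≠ 0) (hEs : Eᵀ = E)
    (hL : LineAt w π x) (hL' : LineAt (w - 1) π x') {X : Matrix n n ℂ} (hX : X ∈ Ul I E) :
    ∃ c : ℂ, π w * X * π 1 + π (w - 1) * X * π 0 = c • X2 (E.map (algebraMap ℚ ℂ)) x x' := by
  obtain ⟨a, ha⟩ := ext2 h hE le_rfl (Nat.sub_le w 1) hL hL' X
  obtain ⟨b, hb⟩ := ext2 h hE (Nat.sub_le w 1) le_rfl hL' hL X
  rw [Nat.sub_self] at hb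
  have e1 : w - (w - 1) = 1 := by omega
  rw [e1] at ha
  have hU := (Ul_ext2 h (by omega) hG hI hX).2
  rw [ha, hb] at hU
  have hs := sym_map hEs
  obtain ⟨F, hF⟩ : ∃ F, F = E.map (algebraMap ℚ ℂ) := ⟨_, rfl⟩
  rw [← hF] at hU hs
  refine ⟨a, ?_⟩
  rw [ha, hb, ← hF]
  -- evaluate at the conjugate vectors
  obtain ⟨y, hy⟩ : ∃ y : n → ℂ, y = (fun i => starRingEnd ℂ (x i)) := ⟨_, rfl⟩
  obtain ⟨y', hy'⟩ : ∃ y' : n → ℂ, y' = (fun i => starRingEnd ℂ (x' i)) := ⟨_, rfl⟩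
  have k1 : x ⬝ᵥ (F *ᵥ y) ≠ 0 := by
    rw [hF, hy]
    exact kap_ne h hE le_rfl hL
  have k2 : x' ⬝ᵥ (F *ᵥ y') ≠ 0 := by
    rw [hF, hy']
    exact kap_ne h hE (Nat.sub_le w 1) hL'
  have fy : π 0 *ᵥ y = y := by
    have := conj_fix h le_rfl hL.fix
    rw [Nat.sub_self, ← hy] at this
    exact this
  have fy' : π 1 *ᵥ y' = y' := by
    have := conj_fix h (Nat.sub_le w 1) hL'.fix
    rw [e1, ← hy'] at this
    exact this
  have k3 : x ⬝ᵥ (F *ᵥ y') = 0 := by
    rw [hF]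
    exact orthp h le_rfl (by omega) (by omega) hL.fix fy'
  have k4 : x' ⬝ᵥ (F *ᵥ y) = 0 := by
    rw [hF]
    exact orthp h (Nat.sub_le w 1) (by omega) (by omega) hL'.fix fy
  have h1 := congrArg (fun M => y ⬝ᵥ (M *ᵥ y')) hU
  simp only [zero_mulVec, dotProduct_zero, add_mulVec, dotProduct_add] at h1
  rw [← mulVec_mulVec, ← mulVec_mulVec, dotProduct_mulVec y _ᵀ, vecMul_transpose, add_mulVec,
    add_mulVec, smul_mulVec, smul_mulVec, smul_mulVec, smul_mulVec, vecMulVec_mulVec,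
    vecMulVec_mulVec, vecMulVec_mulVec, vecMulVec_mulVec, ← dotProduct_mulVec,
    ← dotProduct_mulVec, ← dotProduct_mulVec, ← dotProduct_mulVec, k3, k4] at h1
  simp only [MulOpposite.op_zero, zero_smul, smul_zero, zero_add, add_zero, op_smul_eq_smul,
    mulVec_smul, smul_dotProduct, dotProduct_smul, smul_eq_mul] at h1
  rw [sym_comm hs y x] at h1
  have h2 : (a + b) * ((x ⬝ᵥ (F *ᵥ y)) * (x' ⬝ᵥ (F *ᵥ y'))) = 0 := by
    linear_combination h1
  have h3 := (mul_eq_zero.1 h2).resolve_right (mul_ne_zero k1 k2)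
  have h4 : b = -a := by linear_combination h3
  rw [h4]
  unfold X2
  rw [neg_smul, smul_sub, sub_eq_add_neg]

/-- there is no nonzero rational alternating form vanishing at `(x, x')` -/
def NoAlt (x x' : n → ℂ) : Prop :=
  ∀ S : Matrix n n ℚ, Sᵀ = -S → x ⬝ᵥ (S.map (algebraMap ℚ ℂ) *ᵥ x') = 0 → S = 0

theorem X2_so {F : Matrix n n ℂ} (hF : Fᵀ = F) (u v : n → ℂ) :
    (X2 F u v)ᵀ * F + F * X2 F u v = 0 := by
  unfold X2
  rw [transpose_sub, transpose_vecMulVec, transpose_vecMulVec, sub_mul, mul_sub, vecMulVec_mul,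
    vecMulVec_mul, mul_vecMulVec, mul_vecMulVec, sym_vecMul hF, sym_vecMul hF]
  abel

/-- first case: all rational forms of the Lie algebra vanish at `(x, x')` -/
theorem alt_of_not (h : Proj w E π) (hw : 2 ≤ w) (hG : IsAlgSubgroup I)
    (hI : ∀ z : ℂ, z ≠ 0 → hz w π z ∈ zeros I ℂ) (hE : E.det ≠ 0) (hEs : Eᵀ = E)
    (hL : LineAt w π x) (hL' : LineAt (w - 1) π x')
    (hX : X2 (E.map (algebraMap ℚ ℂ)) x x' ∉ Ul I E) {Y : Matrix n n ℚ}
    (hY : Y.map (algebraMap ℚ ℂ) ∈ Ul I E) :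
    x ⬝ᵥ ((E * Y).map (algebraMap ℚ ℂ) *ᵥ x') = 0 := by
  obtain ⟨c, hc⟩ := comp_mul h hw hG hI hE hEs hL hL' hY
  have h1 := Ul_ext2 h (by omega) hG hI hY
  have hc0 : c = 0 := by
    by_contra hne
    rw [hc] at h1
    have h2 := (Ul I E).smul_mem c⁻¹ h1
    rw [smul_smul, inv_mul_cancel₀ hne, one_smul] at h2
    exact hX h2
  rw [hc0, zero_smul] at hc
  have h3 : π w * Y.map (algebraMap ℚ ℂ) * π 1 = 0 := by
    have h4 := congrArg (fun M => π w * M) hc
    simp only [mul_zero] at h4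
    rw [mul_add, ← mul_assoc, ← mul_assoc, ← mul_assoc, ← mul_assoc, h.idem w le_rfl,
      h.orth w le_rfl (w - 1) (Nat.sub_le _ _) (by omega), zero_mul, zero_mul, add_zero] at h4
    exact h4
  have h2 : (π w * Y.map (algebraMap ℚ ℂ) * π 1).map (starRingEnd ℂ) = 0 := by
    rw [h3]
    exact Matrix.map_zero _ (map_zero _)
  rw [Matrix.map_mul, Matrix.map_mul, rat_conj, h.conj w le_rfl, h.conj 1 (by omega),
    Nat.sub_self] at h2
  rw [Matrix.map_mul, ← mulVec_mulVec, pairp h (q := 0) (by omega) hL.fix]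
  have h4 : π 0 *ᵥ (Y.map (algebraMap ℚ ℂ) *ᵥ x') = 0 := by
    conv_lhs => rw [← hL'.fix]
    rw [mulVec_mulVec, mulVec_mulVec, h2, zero_mulVec]
  rw [h4, mulVec_zero, dotProduct_zero]

theorem X2_mem (h : Proj w E π) (hw : 2 ≤ w) (hG : IsAlgSubgroup I)
    (hI : ∀ z : ℂ, z ≠ 0 → hz w π z ∈ zeros I ℂ) (hE : E.det ≠ 0) (hEs : Eᵀ = E)
    (hL : LineAt w π x) (hL' : LineAt (w - 1) π x') (hq : NoAlt x x') :
    X2 (E.map (algebraMap ℚ ℂ)) x x' ∈ Ul I E := by
  by_contra hX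
  have h0 : ∀ Z ∈ {Z : Matrix n n ℂ | ∃ Y : Matrix n n ℚ,
      Z = Y.map (algebraMap ℚ ℂ) ∧ Z ∈ Ul I E}, Z = 0 := by
    rintro _ ⟨Y, rfl, hY⟩
    have h1 := alt_of_not h hw hG hI hE hEs hL hL' hX hY
    have hsp : Yᵀ * E + E * Y = 0 := by
      have h2 := hY.2
      have h3 : (Yᵀ * E + E * Y).map (algebraMap ℚ ℂ) = (0 : Matrix n n ℚ).map (algebraMap ℚ ℂ) := by
        rw [Matrix.map_add _ (map_add _), Matrix.map_mul, Matrix.map_mul,
          Matrix.map_zero _ (map_zero _)]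
        exact h2
      exact Matrix.map_injective (algebraMap ℚ ℂ).injective h3
    have hsym : (E * Y)ᵀ = -(E * Y) := by
      rw [transpose_mul, hEs]
      exact eq_neg_of_add_eq_zero_left hsp
    have h2 := hq (E * Y) hsym h1
    have hu : IsUnit E.det := isUnit_iff_ne_zero.2 hE
    have h3 : Y = 0 := by
      calc Y = E⁻¹ * (E * Y) := by rw [← mul_assoc, nonsing_inv_mul E hu, one_mul]
        _ = 0 := by rw [h2, mul_zero]
    rw [h3]
    exact Matrix.map_zero _ (map_zero _)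
  have h1 := Ul_descent I E (Phi'_mem h (by omega) hG hI)
  have h2 : Submodule.span ℂ {Z : Matrix n n ℂ | ∃ Y : Matrix n n ℚ,
      Z = Y.map (algebraMap ℚ ℂ) ∧ Z ∈ Ul I E} = ⊥ := by
    rw [Submodule.span_eq_bot]
    exact h0
  rw [h2, Submodule.mem_bot] at h1
  have h3 : Phi' w π *ᵥ x = ((w : ℂ) / 2) • x := by
    unfold Phi' Phi
    rw [sub_mulVec, smul_mulVec, one_mulVec]
    have h4 : (∑ p ∈ Finset.range (w + 1), (p : ℂ) • π p) *ᵥ x = (w : ℂ) • x := by
      conv_lhs => rw [← hL.fix]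
      rw [mulVec_mulVec, h.mul_sum _ le_rfl, smul_mulVec, hL.fix]
    rw [h4]
    module
  rw [h1, zero_mulVec] at h3
  have h4 := smul_eq_zero.1 h3.symm
  rcases h4 with h4 | h4
  · rw [div_eq_zero_iff] at h4
    rcases h4 with h4 | h4
    · have : w = 0 := by exact_mod_cast h4
      omega
    · exact two_ne_zero h4
  · exact hL.ne h4

/-- second case: the Lie algebra contains the rational orthogonal Lie algebra -/
theorem rat_mem2 (hE : E.det ≠ 0) (hEs : Eᵀ = E) (hq : NoAlt x x')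
    (hX : X2 (E.map (algebraMap ℚ ℂ)) x x' ∈ Ul I E) {Y : Matrix n n ℚ}
    (hY : Yᵀ * E + E * Y = 0) : Y.map (algebraMap ℚ ℂ) ∈ Ul I E := by
  classical
  by_contra hnot
  let UQ : Submodule ℚ (Matrix n n ℚ) :=
    { carrier := {Y | Y.map (algebraMap ℚ ℂ) ∈ Ul I E}
      zero_mem' := by
        change (0 : Matrix n n ℚ).map (algebraMap ℚ ℂ) ∈ Ul I E
        rw [Matrix.map_zero _ (map_zero _)]
        exact Submodule.zero_mem _
      add_mem' := by
        intro A B hA hB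
        change (A + B).map (algebraMap ℚ ℂ) ∈ Ul I E
        rw [Matrix.map_add _ (map_add _)]
        exact Submodule.add_mem _ hA hB
      smul_mem' := by
        intro c A hA
        change (c • A).map (algebraMap ℚ ℂ) ∈ Ul I E
        have : (c • A).map (algebraMap ℚ ℂ) = (algebraMap ℚ ℂ c) • A.map (algebraMap ℚ ℂ) := by
          ext i j
          simp
        rw [this]
        exact Submodule.smul_mem _ _ hA }
  have hnot' : Y ∉ UQ := hnot
  obtain ⟨f, hf, hle⟩ := Submodule.exists_le_ker_of_notMem hnot'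
  obtain ⟨A, hA⟩ : ∃ A : Matrix n n ℚ, ∀ i j, A i j = f (Matrix.single i j 1) :=
    ⟨fun i j => f (Matrix.single i j 1), fun _ _ => rfl⟩
  have hfA : ∀ Z : Matrix n n ℚ, f Z = ∑ i, ∑ j, A i j * Z i j := by
    intro Z
    conv_lhs => rw [matrix_eq_sum_single Z]
    rw [map_sum]
    apply Finset.sum_congr rfl
    intro i _
    rw [map_sum]
    apply Finset.sum_congr rfl
    intro j _
    have : Matrix.single i j (Z i j) = Z i j • Matrix.single i j (1 : ℚ) := by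
      rw [Matrix.smul_single, smul_eq_mul, mul_one]
    rw [this, map_smul, smul_eq_mul, hA, mul_comm]
  have hspan : ∀ Z ∈ Ul I E, ∑ i, ∑ j, algebraMap ℚ ℂ (A i j) * Z i j = 0 := by
    intro Z hZ
    have h1 := Ul_descent I E hZ
    clear hZ
    induction h1 using Submodule.span_induction with
    | mem Z hZ =>
      obtain ⟨Y', rfl, hY'⟩ := hZ
      have h2 : f Y' = 0 := hle hY'
      rw [hfA] at h2
      have h3 := congrArg (algebraMap ℚ ℂ) h2
      simpa [map_sum, map_mul] using h3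
    | zero => simp
    | add Z Z' _ _ h1 h2 =>
      simp only [Matrix.add_apply, mul_add, Finset.sum_add_distrib, h1, h2, add_zero]
    | smul c Z _ h1 =>
      have : ∑ i, ∑ j, algebraMap ℚ ℂ (A i j) * (c • Z) i j =
          c * ∑ i, ∑ j, algebraMap ℚ ℂ (A i j) * Z i j := by
        simp only [Finset.mul_sum, Matrix.smul_apply, smul_eq_mul]
        apply Finset.sum_congr rfl
        intro i _
        apply Finset.sum_congr rfl
        intro j _
        ring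
      rw [this, h1, mul_zero]
  have h1 := hspan _ hX
  -- the form `A E^T - E A^T`
  have hform : ∀ u v : n → ℂ, ∑ i, ∑ j, algebraMap ℚ ℂ (A i j) *
      (vecMulVec u (v ᵥ* E.map (algebraMap ℚ ℂ))) i j =
      u ⬝ᵥ ((A * Eᵀ).map (algebraMap ℚ ℂ) *ᵥ v) := by
    intro u v
    simp only [vecMulVec_apply, dotProduct, mulVec, Matrix.map_apply, Matrix.mul_apply,
      transpose_apply, vecMul, map_sum, map_mul, Finset.mul_sum, Finset.sum_mul]
    apply Finset.sum_congr rfl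
    intro i _
    rw [Finset.sum_comm]
    apply Finset.sum_congr rfl
    intro j _
    apply Finset.sum_congr rfl
    intro k _
    ring
  have h2 : x ⬝ᵥ ((A * Eᵀ).map (algebraMap ℚ ℂ) *ᵥ x') -
      x' ⬝ᵥ ((A * Eᵀ).map (algebraMap ℚ ℂ) *ᵥ x) = 0 := by
    rw [← hform, ← hform, ← h1, ← Finset.sum_sub_distrib]
    apply Finset.sum_congr rfl
    intro i _
    rw [← Finset.sum_sub_distrib]
    apply Finset.sum_congr rfl
    intro j _
    rw [X2, Matrix.sub_apply, mul_sub]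
  have h3 : x' ⬝ᵥ ((A * Eᵀ).map (algebraMap ℚ ℂ) *ᵥ x) =
      x ⬝ᵥ ((A * Eᵀ)ᵀ.map (algebraMap ℚ ℂ) *ᵥ x') := by
    have e : (A * Eᵀ)ᵀ.map (algebraMap ℚ ℂ) = ((A * Eᵀ).map (algebraMap ℚ ℂ))ᵀ := rfl
    rw [e, dotProduct_mulVec x, vecMul_transpose, dotProduct_comm]
  have h4 := hq (A * Eᵀ - (A * Eᵀ)ᵀ) (by rw [transpose_sub, transpose_transpose, neg_sub]) (by
    rw [Matrix.map_sub _ (map_sub _), sub_mulVec, dotProduct_sub, ← h3, h2])
  have hu : IsUnit E.det := isUnit_iff_ne_zero.2 hE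
  have h5 : E * Aᵀ = A * E := by
    rw [transpose_mul, transpose_transpose, hEs] at h4
    exact (sub_eq_zero.1 h4).symm
  have h6 : (Aᵀ * Y).trace = -(Aᵀ * Y).trace := by
    have e1 : Aᵀ = E⁻¹ * (A * E) := by rw [← h5, ← mul_assoc, nonsing_inv_mul E hu, one_mul]
    have e2 : E * Y = -(Yᵀ * E) := eq_neg_of_add_eq_zero_right hY
    calc (Aᵀ * Y).trace = (E⁻¹ * (A * E) * Y).trace := by rw [← e1]
      _ = (E⁻¹ * (A * (E * Y))).trace := by simp only [mul_assoc]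
      _ = -(E⁻¹ * (A * (Yᵀ * E))).trace := by rw [e2, mul_neg, mul_neg, trace_neg]
      _ = -((A * Yᵀ) * (E * E⁻¹)).trace := by
        rw [trace_mul_comm]
        simp only [mul_assoc]
      _ = -(A * Yᵀ).trace := by rw [mul_nonsing_inv E hu, mul_one]
      _ = -((A * Yᵀ)ᵀ).trace := by rw [trace_transpose]
      _ = -(Aᵀ * Y).trace := by rw [transpose_mul, transpose_transpose, trace_mul_comm]
  have h7 : (Aᵀ * Y).trace = 0 := by linarith
  apply hf
  rw [hfA, ← h7, Matrix.trace]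
  simp only [Matrix.diag_apply, Matrix.mul_apply, transpose_apply]
  rw [Finset.sum_comm]

/-- the whole orthogonal Lie algebra -/
theorem X2_all (hE : E.det ≠ 0) (hEs : Eᵀ = E) (hq : NoAlt x x')
    (hX : X2 (E.map (algebraMap ℚ ℂ)) x x' ∈ Ul I E) (u v : n → ℂ) :
    X2 (E.map (algebraMap ℚ ℂ)) u v ∈ Ul I E := by
  classical
  have h1 : ∀ i j : n, ((Matrix.single i j (1 : ℚ) - Matrix.single j i 1) * E).map (algebraMap ℚ ℂ) ∈
      Ul I E := by
    intro i j
    apply rat_mem2 hE hEs hq hX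
    rw [transpose_mul, transpose_sub, transpose_single, transpose_single, hEs, ← mul_assoc,
      ← add_mul, ← mul_add]
    have : (Matrix.single j i (1 : ℚ) - Matrix.single i j 1) +
        (Matrix.single i j 1 - Matrix.single j i 1) = 0 := by abel
    rw [this, mul_zero, zero_mul]
  have h2 : X2 (E.map (algebraMap ℚ ℂ)) u v = ∑ i, ∑ j, (u i * v j) •
      ((Matrix.single i j (1 : ℚ) - Matrix.single j i 1) * E).map (algebraMap ℚ ℂ) := by
    have e1 : ∀ i j : n, ((Matrix.single i j (1 : ℚ) - Matrix.single j i 1) * E).map (algebraMap ℚ ℂ) =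
        (Matrix.single i j (1 : ℂ) - Matrix.single j i 1) * E.map (algebraMap ℚ ℂ) := by
      intro i j
      rw [Matrix.map_mul, Matrix.map_sub _ (map_sub _)]
      congr 2
      · ext a b
        simp [Matrix.single_apply, apply_ite]
      · ext a b
        simp [Matrix.single_apply, apply_ite]
    have e2 : ∀ u v : n → ℂ, ∑ i, ∑ j, (u i * v j) • (Matrix.single i j (1 : ℂ)) =
        vecMulVec u v := by
      intro u v
      ext a b
      simp [Matrix.sum_apply, Matrix.single_apply, vecMulVec_apply, ite_and]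
    have e3 : ∑ i, ∑ j, (u i * v j) • (Matrix.single j i (1 : ℂ)) = vecMulVec v u := by
      rw [Finset.sum_comm, ← e2]
      apply Finset.sum_congr rfl
      intro i _
      apply Finset.sum_congr rfl
      intro j _
      rw [mul_comm]
    simp_rw [e1, ← smul_mul_assoc, ← Finset.sum_mul, smul_sub, Finset.sum_sub_distrib]
    rw [e2, e3]
    have e4 : ∀ a b : n → ℂ, vecMulVec a (b ᵥ* E.map (algebraMap ℚ ℂ)) =
        vecMulVec a b * E.map (algebraMap ℚ ℂ) := by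
      intro a b
      rw [vecMulVec_mul]
    unfold X2
    rw [e4, e4, sub_mul]
  rw [h2]
  apply Submodule.sum_mem
  intro i _
  apply Submodule.sum_mem
  intro j _
  exact Submodule.smul_mem _ _ (h1 i j)

end grp

end Pool.Agent.MT100B.H46
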