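import Pool.Agent.Helper46_MTB.O1

/-! MT100B, module HOD: products of two reflections, and generation of the orthogonal group. -/

set_option autoImplicit false
set_option linter.unusedSectionVars false

namespace Pool.Agent.MT100B.H46

open MvPolynomial Matrix Module Pool.Agent.Helper78_MT Pool.Agent.Helper3_MT
  Pool.Agent.Helper46_MT

variable {n : Type*} [Fintype n] [DecidableEq n]

section curve
variable {K : Type*} [Field K]

theorem cev_deriv2 {Γ : Matrix n n (Polynomial K)} {a b c : Polynomial K} {A B : Matrix n n K}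
    (h : ∀ i j, a * Polynomial.derivative (Γ i j) = b * ∑ k, A k j • Γ i k +
      c * ∑ k, B k j • Γ i k) (p : MvPolynomial (n × n) K) :
    a * Polynomial.derivative (cev Γ p) = b * cev Γ (dr A p) + c * cev Γ (dr B p) := by
  induction p using MvPolynomial.induction_on with
  | C c => simp [cev]
  | add p q hp hq =>
    rw [map_add, map_add, mul_add, hp, hq, map_add, map_add, map_add, map_add]
    ring
  | mul_X p ij hp =>
    have e1 : cev Γ (X ij) = Γ ij.1 ij.2 := by simp [cev]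
    have e2 : ∀ (A : Matrix n n K) k, cev Γ (A k ij.2 • X (ij.1, k)) = A k ij.2 • Γ ij.1 k := by
      intro A k; rw [map_smul]; simp [cev]
    have e3 : ∀ A : Matrix n n K, cev Γ (dr A (p * X ij)) =
        cev Γ p * ∑ k, A k ij.2 • Γ ij.1 k + Γ ij.1 ij.2 * cev Γ (dr A p) := by
      intro A
      rw [Derivation.leibniz, map_add, smul_eq_mul, smul_eq_mul, map_mul, map_mul, dr_X, map_sum,
        e1, Finset.sum_congr rfl (fun k _ => e2 A k)]
    rw [e3, e3, map_mul, Polynomial.derivative_mul, e1]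
    have h1 := h ij.1 ij.2
    linear_combination (Γ ij.1 ij.2) * hp + cev Γ p * h1

variable [CharZero K]

theorem curve_mem {G : Set (Matrix n n K)} (hone : 1 ∈ G) {Γ : Matrix n n (Polynomial K)}
    {a b c : Polynomial K} {A B : Matrix n n K} (ha : a.coeff 0 ≠ 0)
    (h : ∀ i j, a * Polynomial.derivative (Γ i j) = b * ∑ k, A k j • Γ i k +
      c * ∑ k, B k j • Γ i k) (hA : A ∈ lieOf G) (hB : B ∈ lieOf G)
    (h0 : Γ.map (Polynomial.eval 0) = 1) (p : MvPolynomial (n × n) K)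
    (hp : ∀ g ∈ G, pev g p = 0) : cev Γ p = 0 := by
  rw [mem_lieOf] at hA hB
  have key : ∀ k : ℕ, ∀ p : MvPolynomial (n × n) K, (∀ g ∈ G, pev g p = 0) →
      Polynomial.X ^ k ∣ cev Γ p := by
    intro k
    induction k with
    | zero => intro p _; rw [pow_zero]; exact one_dvd _
    | succ k ih =>
      intro p hp
      have h1 : (Polynomial.X : Polynomial K) ^ k ∣ a * Polynomial.derivative (cev Γ p) := by
        rw [cev_deriv2 h]
        exact dvd_add ((ih _ (hA p hp)).mul_left b) ((ih _ (hB p hp)).mul_left c)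
      have h2 : ¬ (Polynomial.X : Polynomial K) ∣ a := by
        rw [Polynomial.X_dvd_iff]
        exact ha
      have h3 := Polynomial.prime_X.pow_dvd_of_dvd_mul_left k h2 h1
      rw [Polynomial.X_pow_dvd_iff] at h3 ⊢
      intro d hd
      rcases d with _ | d
      · rw [Polynomial.coeff_zero_eq_eval_zero, cev_eval, h0]
        exact hp _ hone
      · have h4 := h3 d (by omega)
        rw [Polynomial.coeff_derivative] at h4
        exact (mul_eq_zero.1 h4).resolve_right (by exact_mod_cast Nat.succ_ne_zero d)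
  ext d
  rw [Polynomial.coeff_zero]
  exact Polynomial.X_pow_dvd_iff.1 (key (d + 1) p hp) d (Nat.lt_succ_self d)

end curve

section refl

variable {F : Matrix n n ℂ}

/-- the reflection -/
noncomputable def Rf (F : Matrix n n ℂ) (u : n → ℂ) : Matrix n n ℂ :=
  1 - (2 / (u ⬝ᵥ (F *ᵥ u))) • vecMulVec u (u ᵥ* F)

theorem Rf_mulVec (u x : n → ℂ) :
    Rf F u *ᵥ x = x - (2 * (u ⬝ᵥ (F *ᵥ x)) / (u ⬝ᵥ (F *ᵥ u))) • u := by
  unfold Rf
  rw [sub_mulVec, smul_mulVec, vecMulVec_mulVec, one_mulVec, ← dotProduct_mulVec]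
  ext i
  simp
  ring

theorem cube (hF : Fᵀ = F) (u v : n → ℂ) : X2 F u v * X2 F u v * X2 F u v =
    (-((u ⬝ᵥ (F *ᵥ u)) * (v ⬝ᵥ (F *ᵥ v)) - (u ⬝ᵥ (F *ᵥ v)) ^ 2)) • X2 F u v := by
  apply Matrix.ext_of_mulVec_single
  intro j
  obtain ⟨x, hx⟩ : ∃ x : n → ℂ, x = Pi.single j 1 := ⟨_, rfl⟩
  rw [← hx, ← mulVec_mulVec, ← mulVec_mulVec, smul_mulVec]
  simp only [X2_mulVec, mulVec_sub, mulVec_smul, dotProduct_sub, dotProduct_smul, smul_eq_mul]
  rw [sym_comm hF v u]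
  ext i
  simp only [Pi.sub_apply, Pi.smul_apply, smul_eq_mul]
  ring

theorem Rf_mul (hF : Fᵀ = F) {u v : n → ℂ} (hu : u ⬝ᵥ (F *ᵥ u) ≠ 0) (hv : v ⬝ᵥ (F *ᵥ v) ≠ 0)
    (huv : u ⬝ᵥ (F *ᵥ v) ≠ 0) :
    (((u ⬝ᵥ (F *ᵥ u)) * (v ⬝ᵥ (F *ᵥ v))) / (u ⬝ᵥ (F *ᵥ v)) ^ 2) • (Rf F u * Rf F v) =
      (1 + (u ⬝ᵥ (F *ᵥ v))⁻¹ ^ 2 * ((u ⬝ᵥ (F *ᵥ u)) * (v ⬝ᵥ (F *ᵥ v)) - (u ⬝ᵥ (F *ᵥ v)) ^ 2)) •
        (1 : Matrix n n ℂ) + (2 * (u ⬝ᵥ (F *ᵥ v))⁻¹) • X2 F u v +
        (2 * (u ⬝ᵥ (F *ᵥ v))⁻¹ ^ 2) • (X2 F u v * X2 F u v) := by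
  apply Matrix.ext_of_mulVec_single
  intro j
  obtain ⟨x, hx⟩ : ∃ x : n → ℂ, x = Pi.single j 1 := ⟨_, rfl⟩
  rw [← hx, smul_mulVec, ← mulVec_mulVec, add_mulVec, add_mulVec, smul_mulVec, smul_mulVec,
    smul_mulVec, ← mulVec_mulVec, one_mulVec]
  simp only [X2_mulVec, Rf_mulVec, mulVec_sub, mulVec_smul, dotProduct_sub, dotProduct_smul,
    smul_eq_mul]
  rw [sym_comm hF v u]
  obtain ⟨a, ha⟩ : ∃ a, a = u ⬝ᵥ (F *ᵥ u) := ⟨_, rfl⟩
  obtain ⟨b, hb⟩ : ∃ b, b = v ⬝ᵥ (F *ᵥ v) := ⟨_, rfl⟩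
  obtain ⟨c, hc⟩ : ∃ c, c = u ⬝ᵥ (F *ᵥ v) := ⟨_, rfl⟩
  rw [← ha, ← hb, ← hc]
  rw [← ha] at hu
  rw [← hb] at hv
  rw [← hc] at huv
  ext i
  simp only [Pi.sub_apply, Pi.smul_apply, Pi.add_apply, smul_eq_mul]
  field_simp
  ring

theorem Rf_isom (hF : Fᵀ = F) {u : n → ℂ} (hu : u ⬝ᵥ (F *ᵥ u) ≠ 0) :
    (Rf F u)ᵀ * F * Rf F u = F := by
  have h : ∀ x y : n → ℂ, x ⬝ᵥ (((Rf F u)ᵀ * F * Rf F u - F) *ᵥ y) = 0 := by
    intro x y
    rw [sub_mulVec, dotProduct_sub, ← mulVec_mulVec, ← mulVec_mulVec, dotProduct_mulVec x,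
      vecMul_transpose]
    simp only [Rf_mulVec, mulVec_sub, mulVec_smul, dotProduct_sub, dotProduct_smul,
      smul_eq_mul, sub_dotProduct, smul_dotProduct]
    rw [sym_comm hF x u]
    field_simp
    ring
  exact sub_eq_zero.1 (zero_of_dot h)

theorem Rf_sq {u : n → ℂ} (hu : u ⬝ᵥ (F *ᵥ u) ≠ 0) : Rf F u * Rf F u = 1 := by
  apply Matrix.ext_of_mulVec_single
  intro j
  obtain ⟨x, hx⟩ : ∃ x : n → ℂ, x = Pi.single j 1 := ⟨_, rfl⟩
  rw [← hx, ← mulVec_mulVec, one_mulVec]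
  simp only [Rf_mulVec, mulVec_sub, mulVec_smul, dotProduct_sub, dotProduct_smul, smul_eq_mul]
  ext i
  simp only [Pi.sub_apply, Pi.smul_apply, smul_eq_mul]
  field_simp
  ring

theorem Rf_det {u : n → ℂ} (hu : u ⬝ᵥ (F *ᵥ u) ≠ 0) : (Rf F u).det = -1 := by
  have h1 : Rf F u = 1 - replicateCol Unit u * replicateRow Unit
      ((2 / (u ⬝ᵥ (F *ᵥ u))) • (u ᵥ* F)) := by
    unfold Rf
    congr 1
    ext i j
    simp [vecMulVec_apply, Matrix.mul_apply]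
    ring
  rw [h1, det_one_sub_mul_comm, det_unique]
  simp only [Matrix.sub_apply, Matrix.one_apply_eq, Matrix.mul_apply, replicateRow_apply,
    replicateCol_apply, Pi.smul_apply, smul_eq_mul]
  have h2 : ∑ i, 2 / (u ⬝ᵥ (F *ᵥ u)) * (u ᵥ* F) i * u i = 2 := by
    simp_rw [mul_assoc]
    rw [← Finset.mul_sum]
    have h3 : ∑ i, (u ᵥ* F) i * u i = u ⬝ᵥ (F *ᵥ u) := by
      rw [dotProduct_mulVec]
      rfl
    rw [h3]
    field_simp
  rw [h2]
  norm_num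

end refl

end Pool.Agent.MT100B.H46
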