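import Pool.Agent.Helper46_MTB.O2
import Pool.Agent.MT100B.Stmts

/-! MT100B, module HOD: final form. -/

set_option autoImplicit false
set_option linter.unusedSectionVars false

namespace Pool.Agent.MT100B.H46

open MvPolynomial Matrix Module Pool.Agent.Helper78_MT Pool.Agent.Helper3_MT
  Pool.Agent.Helper46_MT Pool.Agent.MT100

universe u

variable {n : Type*} [Fintype n] [DecidableEq n]

section gen

variable {F : Matrix n n ℂ}

/-- an orthogonal basis of anisotropic vectors -/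
theorem orth_basis (hF : Fᵀ = F) (hd : IsUnit F.det) :
    ∃ (m : ℕ) (e : Basis (Fin m) ℂ (n → ℂ)), (∀ i j, i ≠ j → e i ⬝ᵥ (F *ᵥ e j) = 0) ∧
      ∀ i, e i ⬝ᵥ (F *ᵥ e i) ≠ 0 := by
  let _ : Invertible (2 : ℂ) := invertibleOfNonzero two_ne_zero
  have hs : LinearMap.IsSymm (bil F) := ⟨fun x y => by
    rw [RingHom.id_apply, bil_apply, bil_apply]
    exact sym_comm hF x y⟩
  obtain ⟨e, he⟩ := LinearMap.BilinForm.exists_orthogonal_basis hs
  refine ⟨_, e, fun i j hij => he hij, fun i => ?_⟩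
  apply he.not_isOrtho_basis_self_of_separatingLeft
  intro x hx
  have h1 : x ᵥ* F = 0 := by
    ext j
    have := hx (Pi.single j 1)
    rw [bil_apply, dotProduct_mulVec] at this
    simpa using this
  have h2 : x ᵥ* (F * F⁻¹) = 0 := by rw [← vecMul_vecMul, h1, zero_vecMul]
  rwa [mul_nonsing_inv F hd, vecMul_one] at h2

theorem isom_mul {A B : Matrix n n ℂ} (hA : Aᵀ * F * A = F) (hB : Bᵀ * F * B = F) :
    (A * B)ᵀ * F * (A * B) = F := by
  rw [transpose_mul]
  calc Bᵀ * Aᵀ * F * (A * B) = Bᵀ * (Aᵀ * F * A) * B := by simp only [mul_assoc]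
    _ = F := by rw [hA, hB]

/-- the orthogonal group is generated by reflections -/
theorem cd (hF : Fᵀ = F) (hd : IsUnit F.det) {Y : Matrix n n ℂ} (hY : Yᵀ * F * Y = F) :
    ∃ L : List (n → ℂ), (∀ u ∈ L, u ⬝ᵥ (F *ᵥ u) ≠ 0) ∧ Y = (L.map (Rf F)).prod := by
  obtain ⟨m, e, he, he0⟩ := orth_basis hF hd
  have key : ∀ k ≤ m, ∃ (L : List (n → ℂ)) (Z : Matrix n n ℂ), (∀ u ∈ L, u ⬝ᵥ (F *ᵥ u) ≠ 0) ∧
      Y = (L.map (Rf F)).prod * Z ∧ Zᵀ * F * Z = F ∧ ∀ i : Fin m, (i : ℕ) < k → Z *ᵥ e i = e i := by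
    intro k
    induction k with
    | zero =>
      intro _
      exact ⟨[], Y, by simp, by simp, hY, fun i hi => absurd hi (Nat.not_lt_zero _)⟩
    | succ k ih =>
      intro hk
      obtain ⟨L, Z, hL, hYZ, hZ, hfix⟩ := ih (by omega)
      obtain ⟨y, hy⟩ : ∃ y, y = e ⟨k, by omega⟩ := ⟨_, rfl⟩
      obtain ⟨x, hx⟩ : ∃ x, x = Z *ᵥ y := ⟨_, rfl⟩
      have hiso : ∀ a b : n → ℂ, (Z *ᵥ a) ⬝ᵥ (F *ᵥ (Z *ᵥ b)) = a ⬝ᵥ (F *ᵥ b) := by
        intro a b
        have h1 := bil_mul F Z Z a b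
        rw [hZ] at h1
        exact h1
      have hxx : x ⬝ᵥ (F *ᵥ x) = y ⬝ᵥ (F *ᵥ y) := by rw [hx]; exact hiso y y
      have hyy : y ⬝ᵥ (F *ᵥ y) ≠ 0 := by rw [hy]; exact he0 _
      have hperp : ∀ i : Fin m, (i : ℕ) < k → y ⬝ᵥ (F *ᵥ e i) = 0 ∧ x ⬝ᵥ (F *ᵥ e i) = 0 := by
        intro i hi
        have h1 : y ⬝ᵥ (F *ᵥ e i) = 0 := by
          rw [hy]
          apply he
          intro h
          rw [← h] at hi
          exact lt_irrefl _ hi
        refine ⟨h1, ?_⟩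
        rw [← h1, ← hiso y (e i), hfix i hi, hx]
      have hxy := sym_comm hF x y
      by_cases hz : (x - y) ⬝ᵥ (F *ᵥ (x - y)) ≠ 0
      · refine ⟨L ++ [x - y], Rf F (x - y) * Z, ?_, ?_, isom_mul (Rf_isom hF hz) hZ, ?_⟩
        · intro u hu
          rw [List.mem_append, List.mem_singleton] at hu
          rcases hu with hu | rfl
          · exact hL u hu
          · exact hz
        · rw [List.map_append, List.prod_append, List.map_singleton, List.prod_singleton, mul_assoc,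
            ← mul_assoc (Rf F (x - y)), Rf_sq hz, one_mul]
          exact hYZ
        · intro i hi
          rw [← mulVec_mulVec]
          by_cases hik : (i : ℕ) < k
          · rw [hfix i hik, Rf_mulVec, sub_dotProduct, (hperp i hik).1, (hperp i hik).2, sub_zero,
              mul_zero, zero_div, zero_smul, sub_zero]
          · have hi' : i = ⟨k, by omega⟩ := Fin.ext (show (i : ℕ) = k by omega)
            rw [hi', ← hy, ← hx, Rf_mulVec]
            have h2 : 2 * ((x - y) ⬝ᵥ (F *ᵥ x)) / ((x - y) ⬝ᵥ (F *ᵥ (x - y))) = 1 := by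
              rw [div_eq_one_iff_eq hz]
              simp only [mulVec_sub, sub_dotProduct, dotProduct_sub]
              rw [hxx, hxy]
              ring
            rw [h2, one_smul, sub_sub_cancel]
      · have hz' : (x + y) ⬝ᵥ (F *ᵥ (x + y)) ≠ 0 := by
          intro h0
          rw [not_not] at hz
          simp only [mulVec_sub, sub_dotProduct, dotProduct_sub, mulVec_add, add_dotProduct,
            dotProduct_add] at hz h0
          apply hyy
          rw [hxx, hxy] at hz h0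
          linear_combination (1 / 4 : ℂ) * hz + (1 / 4 : ℂ) * h0
        refine ⟨L ++ [x + y, y], Rf F y * (Rf F (x + y) * Z), ?_, ?_,
          isom_mul (Rf_isom hF hyy) (isom_mul (Rf_isom hF hz') hZ), ?_⟩
        · intro u hu
          rw [List.mem_append, List.mem_pair] at hu
          rcases hu with hu | rfl | rfl
          · exact hL u hu
          · exact hz'
          · exact hyy
        · have h1 : ((L ++ [x + y, y]).map (Rf F)).prod * (Rf F y * (Rf F (x + y) * Z)) =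
              (L.map (Rf F)).prod * (Rf F (x + y) * ((Rf F y * Rf F y) * (Rf F (x + y) * Z))) := by
            simp [mul_assoc]
          rw [h1, Rf_sq hyy, one_mul, ← mul_assoc (Rf F (x + y)), Rf_sq hz', one_mul]
          exact hYZ
        · intro i hi
          rw [← mulVec_mulVec, ← mulVec_mulVec]
          by_cases hik : (i : ℕ) < k
          · rw [hfix i hik, Rf_mulVec (x + y), add_dotProduct, (hperp i hik).1, (hperp i hik).2,
              add_zero, mul_zero, zero_div, zero_smul, sub_zero, Rf_mulVec, (hperp i hik).1,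
              mul_zero, zero_div, zero_smul, sub_zero]
          · have hi' : i = ⟨k, by omega⟩ := Fin.ext (show (i : ℕ) = k by omega)
            rw [hi', ← hy, ← hx, Rf_mulVec (x + y)]
            have h2 : 2 * ((x + y) ⬝ᵥ (F *ᵥ x)) / ((x + y) ⬝ᵥ (F *ᵥ (x + y))) = 1 := by
              rw [div_eq_one_iff_eq hz']
              simp only [mulVec_add, add_dotProduct, dotProduct_add]
              rw [hxx, hxy]
              ring
            rw [h2, one_smul, sub_add_cancel_left, Rf_mulVec]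
            have h3 : 2 * (y ⬝ᵥ (F *ᵥ (-y))) / (y ⬝ᵥ (F *ᵥ y)) = -2 := by
              rw [mulVec_neg, dotProduct_neg]
              field_simp
            rw [h3]
            module
  obtain ⟨L, Z, hL, hYZ, -, hfix⟩ := key m le_rfl
  refine ⟨L, hL, ?_⟩
  have hZ1 : Z = 1 := by
    have h1 : Matrix.mulVecLin Z = LinearMap.id := by
      apply e.ext
      intro i
      exact hfix i i.2
    apply Matrix.ext_of_mulVec_single
    intro j
    rw [one_mulVec]
    exact congrArg (fun f : (n → ℂ) →ₗ[ℂ] (n → ℂ) => f (Pi.single j 1)) h1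
  rw [hYZ, hZ1, mul_one]

theorem det_prod {L : List (n → ℂ)} (hL : ∀ u ∈ L, u ⬝ᵥ (F *ᵥ u) ≠ 0) :
    ((L.map (Rf F)).prod).det = (-1) ^ L.length := by
  induction L with
  | nil => simp
  | cons u L ih =>
    rw [List.map_cons, List.prod_cons, det_mul, Rf_det (hL u (List.mem_cons_self)),
      ih (fun v hv => hL v (List.mem_cons_of_mem _ hv)), List.length_cons, pow_succ']

end gen

section grp
variable {w : ℕ} {E : Matrix n n ℚ} {π : ℕ → Matrix n n ℂ} {I : Set (MvPolynomial (n × n) ℚ)}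
  {F : Matrix n n ℂ}

theorem smul_mem' (hG : IsAlgSubgroup I)
    (hsc : ∀ c : ℂ, c ≠ 0 → c • (1 : Matrix n n ℂ) ∈ zeros I ℂ) {c : ℂ} (hc : c ≠ 0)
    {M : Matrix n n ℂ} (hM : M ∈ zeros I ℂ) : c • M ∈ zeros I ℂ := by
  have h := hG.2.1 _ (hsc c hc) _ hM
  rwa [smul_mul_assoc, one_mul] at h

theorem pair_mem (hG : IsAlgSubgroup I)
    (hsc : ∀ c : ℂ, c ≠ 0 → c • (1 : Matrix n n ℂ) ∈ zeros I ℂ)
    (h1 : (1 : Matrix n n ℂ) ∈ lieOf (zeros I ℂ)) (hF : Fᵀ = F) {u v : n → ℂ}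
    (hX : X2 F u v ∈ lieOf (zeros I ℂ)) (hu : u ⬝ᵥ (F *ᵥ u) ≠ 0) (hv : v ⬝ᵥ (F *ᵥ v) ≠ 0)
    (huv : u ⬝ᵥ (F *ᵥ v) ≠ 0) : Rf F u * Rf F v ∈ zeros I ℂ := by
  obtain ⟨M, hM⟩ : ∃ M, M = X2 F u v := ⟨_, rfl⟩
  obtain ⟨δ, hδ⟩ : ∃ δ, δ = (u ⬝ᵥ (F *ᵥ u)) * (v ⬝ᵥ (F *ᵥ v)) - (u ⬝ᵥ (F *ᵥ v)) ^ 2 := ⟨_, rfl⟩
  have hM3 : M * M * M = (-δ) • M := by rw [hM, hδ]; exact cube hF u v
  obtain ⟨Γ, hΓ⟩ : ∃ Γ : Matrix n n (Polynomial ℂ), ∀ i j, Γ i j =
      Polynomial.C ((1 : Matrix n n ℂ) i j) * (1 + Polynomial.C δ * Polynomial.X ^ 2) +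
        Polynomial.C (2 * M i j) * Polynomial.X + Polynomial.C (2 * (M * M) i j) *
          Polynomial.X ^ 2 := ⟨fun i j => _, fun i j => rfl⟩
  have hev : ∀ t : ℂ, Γ.map (Polynomial.eval t) = (1 + t ^ 2 * δ) • (1 : Matrix n n ℂ) +
      (2 * t) • M + (2 * t ^ 2) • (M * M) := by
    intro t
    ext i j
    simp only [Matrix.map_apply, hΓ, Polynomial.eval_add, Polynomial.eval_mul, Polynomial.eval_C,
      Polynomial.eval_pow, Polynomial.eval_X, Polynomial.eval_one, Matrix.add_apply,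
      Matrix.smul_apply, smul_eq_mul]
    ring
  have hder : ∀ i j, (1 + Polynomial.C δ * Polynomial.X ^ 2) * Polynomial.derivative (Γ i j) =
      (Polynomial.C (2 * δ) * Polynomial.X) * ∑ k, (1 : Matrix n n ℂ) k j • Γ i k +
      2 * ∑ k, M k j • Γ i k := by
    intro i j
    have e1 : ∑ k, (1 : Matrix n n ℂ) k j • Γ i k = Γ i j := by
      rw [Finset.sum_eq_single j]
      · rw [one_apply_eq, one_smul]
      · intro k _ hk
        rw [one_apply_ne hk, zero_smul]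
      · intro h
        exact absurd (Finset.mem_univ _) h
    have e2 : ∑ k, M k j • Γ i k = Polynomial.C (M i j) * (1 + Polynomial.C δ * Polynomial.X ^ 2) +
        Polynomial.C (2 * (M * M) i j) * Polynomial.X - Polynomial.C (2 * δ * M i j) *
          Polynomial.X ^ 2 := by
      have e3 : ∀ k, M k j • Γ i k = Polynomial.C ((1 : Matrix n n ℂ) i k * M k j) *
          (1 + Polynomial.C δ * Polynomial.X ^ 2) +
          Polynomial.C (2 * (M i k * M k j)) * Polynomial.X +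
          Polynomial.C (2 * ((M * M) i k * M k j)) * Polynomial.X ^ 2 := by
        intro k
        rw [hΓ, Polynomial.smul_eq_C_mul]
        simp only [map_mul]
        ring
      rw [Finset.sum_congr rfl fun k _ => e3 k, Finset.sum_add_distrib, Finset.sum_add_distrib,
        ← Finset.sum_mul, ← Finset.sum_mul, ← Finset.sum_mul, ← map_sum, ← map_sum, ← map_sum,
        ← Finset.mul_sum, ← Finset.mul_sum]
      have e4 : ∑ k, (1 : Matrix n n ℂ) i k * M k j = M i j := by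
        have := congrFun (congrFun (one_mul M) i) j
        rwa [Matrix.mul_apply] at this
      have e5 : ∑ k, M i k * M k j = (M * M) i j := (Matrix.mul_apply).symm
      have e6 : ∑ k, (M * M) i k * M k j = -δ * M i j := by
        have := congrFun (congrFun hM3 i) j
        rwa [Matrix.mul_apply, Matrix.smul_apply, smul_eq_mul] at this
      rw [e4, e5, e6]
      simp only [map_mul, map_neg]
      ring
    rw [e1, e2, hΓ]
    simp only [map_add, Polynomial.derivative_mul, Polynomial.derivative_C,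
      Polynomial.derivative_X_pow, Polynomial.derivative_X, Polynomial.derivative_one, map_mul,
      map_ofNat, Polynomial.derivative_ofNat]
    simp only [Nat.cast_ofNat, Nat.add_one_sub_one, pow_one, map_ofNat]
    ring
  have hcur : ∀ p : MvPolynomial (n × n) ℂ, (∀ g ∈ zeros I ℂ, pev g p = 0) → cev Γ p = 0 := by
    intro p hp
    refine curve_mem hG.1 (a := 1 + Polynomial.C δ * Polynomial.X ^ 2) ?_ hder h1
      (by rw [hM]; exact hX) ?_ p hp
    · simp
    · rw [hev]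
      simp
  have hval : (((u ⬝ᵥ (F *ᵥ u)) * (v ⬝ᵥ (F *ᵥ v))) / (u ⬝ᵥ (F *ᵥ v)) ^ 2) •
      (Rf F u * Rf F v) = Γ.map (Polynomial.eval (u ⬝ᵥ (F *ᵥ v))⁻¹) := by
    rw [hev, Rf_mul hF hu hv huv, hM, hδ]
  obtain ⟨κ, hκ⟩ : ∃ κ, κ = ((u ⬝ᵥ (F *ᵥ u)) * (v ⬝ᵥ (F *ᵥ v))) / (u ⬝ᵥ (F *ᵥ v)) ^ 2 :=
    ⟨_, rfl⟩
  rw [← hκ] at hval
  have hκ0 : κ ≠ 0 := by
    rw [hκ]
    exact div_ne_zero (mul_ne_zero hu hv) (pow_ne_zero _ huv)
  have hmem : κ • (Rf F u * Rf F v) ∈ zeros I ℂ := by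
    refine ⟨?_, fun p hp => ?_⟩
    · rw [det_smul, det_mul, Rf_det hu, Rf_det hv]
      refine (isUnit_iff_ne_zero.2 (mul_ne_zero (pow_ne_zero _ hκ0) ?_))
      norm_num
    · rw [← pevC, hval, ← cev_eval, hcur _ ?_, Polynomial.eval_zero]
      intro g hg
      rw [pevC]
      exact hg.2 p hp
  have := smul_mem' hG hsc (inv_ne_zero hκ0) hmem
  rwa [smul_smul, inv_mul_cancel₀ hκ0, one_smul] at this

theorem pair_mem' (hG : IsAlgSubgroup I)
    (hsc : ∀ c : ℂ, c ≠ 0 → c • (1 : Matrix n n ℂ) ∈ zeros I ℂ)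
    (h1 : (1 : Matrix n n ℂ) ∈ lieOf (zeros I ℂ)) (hF : Fᵀ = F)
    (hX : ∀ u v, X2 F u v ∈ lieOf (zeros I ℂ)) {u v : n → ℂ} (hu : u ⬝ᵥ (F *ᵥ u) ≠ 0)
    (hv : v ⬝ᵥ (F *ᵥ v) ≠ 0) : Rf F u * Rf F v ∈ zeros I ℂ := by
  by_cases huv : u ⬝ᵥ (F *ᵥ v) = 0
  · have hvu : v ⬝ᵥ (F *ᵥ u) = 0 := by rw [sym_comm hF]; exact huv
    obtain ⟨l, hl0, hl⟩ : ∃ l : ℂ, l ≠ 0 ∧ (u ⬝ᵥ (F *ᵥ u)) + l ^ 2 * (v ⬝ᵥ (F *ᵥ v)) ≠ 0 := by
      by_cases h : (u ⬝ᵥ (F *ᵥ u)) + 1 ^ 2 * (v ⬝ᵥ (F *ᵥ v)) = 0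
      · refine ⟨2, two_ne_zero, fun h' => hv ?_⟩
        linear_combination (1 / 3 : ℂ) * h' - (1 / 3 : ℂ) * h
      · exact ⟨1, one_ne_zero, h⟩
    obtain ⟨z, hz⟩ : ∃ z, z = u + l • v := ⟨_, rfl⟩
    have hzz : z ⬝ᵥ (F *ᵥ z) ≠ 0 := by
      have : z ⬝ᵥ (F *ᵥ z) = (u ⬝ᵥ (F *ᵥ u)) + l ^ 2 * (v ⬝ᵥ (F *ᵥ v)) := by
        rw [hz]
        simp only [mulVec_add, mulVec_smul, add_dotProduct, dotProduct_add, smul_dotProduct,
          dotProduct_smul, smul_eq_mul, huv, hvu]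
        ring
      rw [this]
      exact hl
    have huz : u ⬝ᵥ (F *ᵥ z) ≠ 0 := by
      have : u ⬝ᵥ (F *ᵥ z) = u ⬝ᵥ (F *ᵥ u) := by
        rw [hz]
        simp only [mulVec_add, mulVec_smul, dotProduct_add, dotProduct_smul, smul_eq_mul, huv]
        ring
      rw [this]
      exact hu
    have hzv : z ⬝ᵥ (F *ᵥ v) ≠ 0 := by
      have : z ⬝ᵥ (F *ᵥ v) = l * (v ⬝ᵥ (F *ᵥ v)) := by
        rw [hz]
        simp only [add_dotProduct, smul_dotProduct, smul_eq_mul, huv]
        ring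
      rw [this]
      exact mul_ne_zero hl0 hv
    have e1 := hG.2.1 _ (pair_mem hG hsc h1 hF (hX u z) hu hzz huz) _
      (pair_mem hG hsc h1 hF (hX z v) hzz hv hzv)
    rw [mul_assoc, ← mul_assoc (Rf F z), Rf_sq hzz, one_mul] at e1
    exact e1
  · exact pair_mem hG hsc h1 hF (hX u v) hu hv huv

theorem even_mem (hG : IsAlgSubgroup I)
    (hsc : ∀ c : ℂ, c ≠ 0 → c • (1 : Matrix n n ℂ) ∈ zeros I ℂ)
    (h1 : (1 : Matrix n n ℂ) ∈ lieOf (zeros I ℂ)) (hF : Fᵀ = F)
    (hX : ∀ u v, X2 F u v ∈ lieOf (zeros I ℂ)) : ∀ (k : ℕ) (L : List (n → ℂ)),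
    L.length = 2 * k → (∀ u ∈ L, u ⬝ᵥ (F *ᵥ u) ≠ 0) → (L.map (Rf F)).prod ∈ zeros I ℂ := by
  intro k
  induction k with
  | zero =>
    intro L hL _
    have : L = [] := List.length_eq_zero_iff.1 (by omega)
    rw [this]
    exact hG.1
  | succ k ih =>
    intro L hL hL'
    match L, hL, hL' with
    | [], hL, _ => simp at hL
    | [_], hL, _ => simp at hL; omega
    | u :: v :: L, hL, hL' =>
      rw [List.map_cons, List.map_cons, List.prod_cons, List.prod_cons, ← mul_assoc]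
      refine hG.2.1 _ (pair_mem' hG hsc h1 hF hX (hL' u (by simp)) (hL' v (by simp))) _
        (ih L ?_ fun x hx => hL' x (by simp [hx]))
      simp only [List.length_cons] at hL
      omega

theorem o_mem (hG : IsAlgSubgroup I)
    (hsc : ∀ c : ℂ, c ≠ 0 → c • (1 : Matrix n n ℂ) ∈ zeros I ℂ)
    (h1 : (1 : Matrix n n ℂ) ∈ lieOf (zeros I ℂ)) (hF : Fᵀ = F) (hd : IsUnit F.det)
    (hodd : Odd (Fintype.card n)) (hX : ∀ u v, X2 F u v ∈ lieOf (zeros I ℂ)) {Y : Matrix n n ℂ}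
    (hY : Yᵀ * F * Y = F) : Y ∈ zeros I ℂ := by
  obtain ⟨L, hL, hYL⟩ := cd hF hd hY
  rcases Nat.even_or_odd L.length with h | h
  · obtain ⟨k, hk⟩ := h
    rw [hYL]
    exact even_mem hG hsc h1 hF hX k L (by omega) hL
  · have hY' : (-Y)ᵀ * F * (-Y) = F := by
      rw [transpose_neg, neg_mul, neg_mul_neg]
      exact hY
    obtain ⟨L', hL', hYL'⟩ := cd hF hd hY'
    have e1 := det_prod hL'
    rw [← hYL', det_neg, hodd.neg_one_pow, hYL, det_prod hL, h.neg_one_pow, neg_mul_neg,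
      one_mul] at e1
    have hev : Even L'.length := by
      rcases Nat.even_or_odd L'.length with h' | h'
      · exact h'
      · rw [h'.neg_one_pow] at e1
        norm_num at e1
    obtain ⟨k, hk⟩ := hev
    have h2 := even_mem hG hsc h1 hF hX k L' (by omega) hL'
    rw [← hYL'] at h2
    have h3 := smul_mem' hG hsc (neg_ne_zero.2 one_ne_zero) h2
    rwa [neg_one_smul, neg_neg] at h3

theorem sim_mem2 (hG : IsAlgSubgroup I) (hE : E.det ≠ 0) (hEs : Eᵀ = E)
    (hsc : ∀ c : ℂ, c ≠ 0 → c • (1 : Matrix n n ℂ) ∈ zeros I ℂ)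
    (h1 : (1 : Matrix n n ℂ) ∈ lieOf (zeros I ℂ)) (hodd : Odd (Fintype.card n))
    (hall : ∀ u v, X2 (E.map (algebraMap ℚ ℂ)) u v ∈ Ul I E) :
    similitudes E ℂ ⊆ zeros I ℂ := by
  rintro X ⟨hX, c, hc⟩
  have hn : Nonempty n := Fintype.card_pos_iff.1 hodd.pos
  have hc0 : c ≠ 0 := by
    rintro rfl
    rw [zero_smul] at hc
    have h1 : IsUnit (Xᵀ * E.map (algebraMap ℚ ℂ) * X).det := by
      rw [det_mul, det_mul, det_transpose]
      exact (hX.mul (det_map hE)).mul hX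
    rw [hc, det_zero] at h1
    exact not_isUnit_zero h1
  obtain ⟨μ, hμ⟩ := IsAlgClosed.exists_pow_nat_eq c (n := 2) (by norm_num)
  have hμ0 : μ ≠ 0 := by
    rintro rfl
    rw [zero_pow two_ne_zero] at hμ
    exact hc0 hμ.symm
  have h2 : (μ⁻¹ • X) ∈ zeros I ℂ := by
    apply o_mem hG hsc h1 (sym_map hEs) (det_map hE) hodd (fun u v => (hall u v).1)
    rw [transpose_smul, smul_mul_assoc, smul_mul_smul_comm, hc, smul_smul, ← hμ]
    have : μ⁻¹ * μ⁻¹ * μ ^ 2 = 1 := by field_simp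
    rw [this, one_smul]
  have h3 := smul_mem' hG hsc hμ0 h2
  rwa [smul_smul, mul_inv_cancel₀ hμ0, one_smul] at h3

end grp

/-- **HOD** -/
theorem hod : HodStmt.{u} := by
  intro n _ _ w E V om om' hw hw4 hodd hV hVw hV2 hr hr1 hq K _ _
  have hE := det_ne hV
  have hE0 : E ≠ 0 := by
    rintro rfl
    have hn : Nonempty n := Fintype.card_pos_iff.1 hodd.pos
    rw [det_zero] at hE
    exact hE rfl
  apply Set.eq_of_subset_of_subset
  · exact mt_sub hV hE0 K
  · intro X hX I hG hI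
    obtain ⟨π, hπ, h1, h2, h3⟩ := proj_of hV
    have hEs : Eᵀ = E := by
      have := hV.symm
      rwa [hw.neg_one_pow, one_smul] at this
    have hne : w ≠ w - 1 := by omega
    have hom' : om ∈ V w := by
      rw [hVw]
      exact Submodule.mem_span_singleton_self om
    have hL : LineAt w π om := by
      refine ⟨?_, h2 w om hom', fun v => ?_⟩
      · rintro rfl
        rw [hVw, Submodule.span_zero_singleton, finrank_bot] at hr
        exact zero_ne_one hr
      · have h4 := h1 w v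
        rw [hVw] at h4
        obtain ⟨c, hc⟩ := Submodule.mem_span_singleton.1 h4
        exact ⟨c, hc.symm⟩
    obtain ⟨x', hx'⟩ : ∃ x', x' = π (w - 1) *ᵥ om' := ⟨_, rfl⟩
    have hrk : ∀ v, ∃ c : ℂ, π (w - 1) *ᵥ v = c • x' := by
      intro v
      have h4 : π (w - 1) *ᵥ v ∈ V w ⊔ V (w - 1) := Submodule.mem_sup_right (h1 _ v)
      rw [hV2] at h4
      obtain ⟨a, b, hab⟩ := Submodule.mem_span_pair.1 h4
      refine ⟨b, ?_⟩
      have h5 := h2 (w - 1) _ (h1 (w - 1) v)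
      rw [← hab, mulVec_add, mulVec_smul, mulVec_smul, h3 (w - 1) w hne.symm om hom', smul_zero,
        zero_add, hab, ← hx'] at h5
      exact h5.symm
    have hL' : LineAt (w - 1) π x' := by
      refine ⟨?_, ?_, hrk⟩
      · intro h0
        have h5 : V (w - 1) = ⊥ := by
          rw [Submodule.eq_bot_iff]
          intro v hv
          obtain ⟨c, hc⟩ := hrk v
          rw [h2 _ v hv, h0, smul_zero] at hc
          exact hc
        rw [h5, finrank_bot] at hr1
        exact zero_ne_one hr1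
      · rw [hx']
        exact h2 _ _ (h1 _ _)
    have hNA : NoAlt om x' := by
      intro S hS hS0
      apply hq S hS
      have h4 : om' ∈ V w ⊔ V (w - 1) := by
        rw [hV2]
        exact Submodule.subset_span (by simp)
      obtain ⟨y, hy, z, hz, hyz⟩ := Submodule.mem_sup.1 h4
      rw [hVw] at hy
      obtain ⟨c, hc⟩ := Submodule.mem_span_singleton.1 hy
      have h5 : x' = z := by
        rw [hx', ← hyz, mulVec_add, h2 _ z hz, ← hc, mulVec_smul, h3 (w - 1) w hne.symm om hom',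
          smul_zero, zero_add]
      have hSk : (S.map (algebraMap ℚ ℂ))ᵀ = -S.map (algebraMap ℚ ℂ) := skew_map hS
      rw [← hyz, ← hc, mulVec_add, mulVec_smul, dotProduct_add, dotProduct_smul,
        skew_self hSk, smul_zero, zero_add, ← h5]
      exact hS0
    have hI' : ∀ z : ℂ, z ≠ 0 → hz w π z ∈ zeros I ℂ := fun z hz0 => hI _ (hz_torus hπ h2 hz0)
    have hw1 : 1 ≤ w := by omega
    have hall := X2_all hE hEs hNA (X2_mem hπ (by omega) hG hI' hE hEs hL hL' hNA)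
    exact transfer hE0 (sim_mem2 hG hE hEs (fun c hc => scal_mem hπ hw1 hI' hc)
      (one_mem_lie hπ hw1 hG hI') hodd hall) K hX

end Pool.Agent.MT100B.H46
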