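import Pool.Agent.Helper24_MT100B.Exm
import Pool.Agent.Helper83_MT.Sys

/-! MT100B, module SYS: exterior squares of systems (adapted from the symmetric square, module SYS of
MT100 by helper83). -/

set_option autoImplicit false

namespace Pool.Agent.MT100B.H46

open Matrix Pool.Agent.MT100 Pool.Agent.MT100.H83

section pol

variable {r : ℕ} {R : Type} [CommRing R]

/-- the polarization of `ex` -/
def pe (A B : Matrix (Fin r) (Fin r) R) : Matrix (AI r) (AI r) R :=
  fun β α => A β.1.1 α.1.1 * B β.1.2 α.1.2 + B β.1.1 α.1.1 * A β.1.2 α.1.2 -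
    (A β.1.1 α.1.2 * B β.1.2 α.1.1 + B β.1.1 α.1.2 * A β.1.2 α.1.1)

theorem pe_eq (A B : Matrix (Fin r) (Fin r) R) : pe A B = ex (A + B) - ex A - ex B := by
  ext β α
  simp only [pe, ex, Matrix.add_apply, Matrix.sub_apply]
  ring

theorem ex_mul (M M' : Matrix (Fin r) (Fin r) R) : ex (M * M') = ex M * ex M' :=
  H24.exm.1 r R M M'

theorem pe_mul_left (M A B : Matrix (Fin r) (Fin r) R) : pe (M * A) (M * B) = ex M * pe A B := by
  rw [pe_eq, pe_eq, ← mul_add, ex_mul, ex_mul, ex_mul, mul_sub, mul_sub]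

theorem pe_mul_right (M A B : Matrix (Fin r) (Fin r) R) : pe (A * M) (B * M) = pe A B * ex M := by
  rw [pe_eq, pe_eq, ← add_mul, ex_mul, ex_mul, ex_mul, sub_mul, sub_mul]

theorem pe_smul (c : R) (A B : Matrix (Fin r) (Fin r) R) : pe (c • A) B = c • pe A B := by
  ext β α
  simp only [pe, Matrix.smul_apply, smul_eq_mul]
  ring

theorem pe_sub (A A' B : Matrix (Fin r) (Fin r) R) : pe (A - A') B = pe A B - pe A' B := by
  ext β α
  simp only [pe, Matrix.sub_apply]
  ring

theorem pe_add_left (A A' B : Matrix (Fin r) (Fin r) R) : pe (A + A') B = pe A B + pe A' B := by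
  ext β α
  simp only [pe, Matrix.add_apply]
  ring

theorem pe_comm (A B : Matrix (Fin r) (Fin r) R) : pe A B = pe B A := by
  ext β α
  simp only [pe]
  ring

theorem pe_zero (A : Matrix (Fin r) (Fin r) R) : pe 0 A = 0 := by
  ext β α
  simp [pe]

theorem pe_map {R' : Type} [CommRing R'] (f : R →+* R') (A B : Matrix (Fin r) (Fin r) R) :
    pe (A.map f) (B.map f) = (pe A B).map f := by
  ext β α
  simp only [pe, Matrix.map_apply, map_add, map_mul, map_sub]

theorem pe_mul_pe (A B M : Matrix (Fin r) (Fin r) R) :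
    pe A B * pe M 1 = pe (A * M) B + pe A (B * M) := by
  have h1 : pe M 1 = ex (M + 1) - ex M - ex 1 := pe_eq M 1
  rw [h1, mul_sub, mul_sub, ← pe_mul_right, ← pe_mul_right, ← pe_mul_right, mul_add, mul_add,
    mul_one, mul_one, pe_add_left, pe_comm (A * M) (B * M + B), pe_comm A (B * M + B), pe_add_left,
    pe_add_left, pe_comm (B * M) (A * M), pe_comm B (A * M), pe_comm (B * M) A, pe_comm B A]
  abel

theorem ex_mul_pe (H N : Matrix (Fin r) (Fin r) R) : pe (H * N) H = ex H * pe N 1 := by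
  rw [← pe_mul_left, mul_one]

theorem pe_mul_ex (B H : Matrix (Fin r) (Fin r) R) : pe (B * H) H = pe B 1 * ex H := by
  rw [← pe_mul_right, one_mul]

theorem pe_nil {N : Matrix (Fin r) (Fin r) ℤ} (h : IsNilpotent N) : IsNilpotent (pe N 1) := by
  obtain ⟨s, hs⟩ := h
  have key : ∀ k i j : ℕ, 2 * s ≤ i + j + k → pe (N ^ i) (N ^ j) * (pe N 1) ^ k = 0 := by
    intro k
    induction k with
    | zero =>
      intro i j hij
      rw [pow_zero, mul_one]
      rcases le_or_gt s i with h | h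
      · rw [pow_eq_zero_of_le h hs, pe_zero]
      · rw [pow_eq_zero_of_le (show s ≤ j by omega) hs, pe_comm, pe_zero]
    | succ k ih =>
      intro i j hij
      rw [pow_succ', ← mul_assoc, pe_mul_pe, add_mul, ← pow_succ, ← pow_succ,
        ih (i + 1) j (by omega), ih i (j + 1) (by omega), add_zero]
  refine ⟨2 * s, ?_⟩
  have h1 := key (2 * s) 0 0 (by omega)
  rw [pow_zero] at h1
  have h2 : pe (1 : Matrix (Fin r) (Fin r) ℤ) 1 = (2 : ℤ) • 1 := by
    have h3 : ex ((2 : ℤ) • (1 : Matrix (Fin r) (Fin r) ℤ)) = (4 : ℤ) • ex 1 := by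
      ext β α
      simp only [ex, Matrix.smul_apply, smul_eq_mul]
      ring
    rw [pe_eq, ← two_smul ℤ (1 : Matrix (Fin r) (Fin r) ℤ), h3, H24.exm.2.1 r ℤ]
    module
  rw [h2, smul_mul_assoc, one_mul] at h1
  ext i j
  have h4 := congrFun (congrFun h1 i) j
  rw [Matrix.smul_apply, Matrix.zero_apply, smul_eq_mul] at h4
  rcases mul_eq_zero.1 h4 with h5 | h5
  · norm_num at h5
  · rw [h5, Matrix.zero_apply]

end pol

theorem dv_ex {r : ℕ} (H : Matrix (Fin r) (Fin r) (PowerSeries ℚ)) :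
    (ex H).map dv = pe (H.map dv) H := by
  ext1 β α
  rw [Matrix.map_apply]
  simp only [pe, ex, Matrix.map_apply]
  have h1 : ∀ f g : PowerSeries ℚ, dv (f - g) = dv f - dv g :=
    fun f g => map_sub (PowerSeries.derivative ℚ) f g
  rw [h1, dv_mul', dv_mul']

theorem gsys_ex {r : ℕ} {H K : Matrix (Fin r) (Fin r) (PowerSeries ℚ)}
    {N : Matrix (Fin r) (Fin r) ℤ} {q : Polynomial ℤ} {B : Matrix (Fin r) (Fin r) (Polynomial ℤ)}
    (h : GSys H K N q B) : GSys (ex H) (ex K) (pe N 1) q (pe B 1) := by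
  have hg := Helper5_MT100.gcl
  have gex : ∀ M : Matrix (Fin r) (Fin r) (PowerSeries ℚ), (∀ i j, GType (M i j)) →
      ∀ i j, GType (ex M i j) := by
    intro M hM i j
    simp only [ex]
    apply hg.2.2.1
    · exact hg.2.2.2.1 _ _ (hM _ _) (hM _ _)
    · exact hg.2.2.2.1 _ _ (hM _ _) (hM _ _)
  refine ⟨?_, ?_, pe_nil h.nil, h.q0, ?_, gex H h.gH, gex K h.gK⟩
  · rw [← ex_mul, h.inv, H24.exm.2.1 r]
  · intro i j
    have h1 : H.map PowerSeries.constantCoeff = 1 := by
      ext a b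
      rw [Matrix.map_apply, h.one, Matrix.one_apply]
    have h2 : (ex H).map PowerSeries.constantCoeff = 1 := by
      rw [← H24.exm.2.2.1, h1, H24.exm.2.1]
    have h3 := congrFun (congrFun h2 i) j
    rw [Matrix.map_apply, Matrix.one_apply] at h3
    exact h3
  · have h1 : (pe B 1).map zp = pe (B.map zp) 1 := by
      have h2 := pe_map zpH B 1
      rw [Matrix.map_one _ (map_zero _) (map_one _)] at h2
      exact h2.symm
    have h2 : (pe N 1).map (fun x : ℤ => (x : PowerSeries ℚ)) =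
        pe (N.map (fun x : ℤ => (x : PowerSeries ℚ))) 1 := by
      have h2 := pe_map (Int.castRingHom (PowerSeries ℚ)) N 1
      rw [Matrix.map_one _ (map_zero _) (map_one _)] at h2
      exact h2.symm
    rw [dv_ex, h1, h2, ← ex_mul_pe, ← pe_mul_ex, ← pe_smul, ← pe_smul, ← pe_sub, h.ode]

/-- SYS: exterior squares of systems -/
theorem sys : SysStmt := by
  rintro r H ⟨K, N, q, B, h⟩
  exact ⟨ex K, pe N 1, q, pe B 1, gsys_ex h⟩

end Pool.Agent.MT100B.H46
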